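import Pool.Agent.Helper29.ZBU.Cont

set_option autoImplicit false

/-!
# The theorem of Borsuk and Ulam for products of spheres
-/

namespace Pool.Agent.Helper29.ZBU

open Finset

variable {ι : Type} [DecidableEq ι] [Fintype ι] {d : ℕ}

/-- The upper half of the sphere, over the ball of the maximum norm. -/
noncomputable def up {a : ℕ} (y : Fin a → ℝ) : Fin (a + 1) → ℝ := Fin.cons (1 - ‖y‖) y

theorem up_ne_zero {a : ℕ} (y : Fin a → ℝ) : up y ≠ 0 := by
  intro h
  have h1 : y = 0 := by
    funext l
    have := congrFun h l.succ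
    simpa [up] using this
  have h2 := congrFun h 0
  rw [h1] at h2
  simp [up] at h2

theorem up_neg {a : ℕ} (y : Fin a → ℝ) (h : ‖y‖ = 1) : up (-y) = -up y := by
  funext l
  refine Fin.cases ?_ (fun l => ?_) l
  · simp [up, h]
  · simp [up]

theorem continuous_up {a : ℕ} : Continuous (up : (Fin a → ℝ) → Fin (a + 1) → ℝ) := by
  refine continuous_pi fun l => ?_
  refine Fin.cases ?_ (fun l => ?_) l
  · simp only [up, Fin.cons_zero]
    fun_prop
  · simp only [up, Fin.cons_succ]
    fun_prop

/-- **The theorem of Borsuk and Ulam for products of spheres.** Let `f j` be `d` continuous real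
functions on the product of the unit spheres of the spaces `E i` of dimension `a i + 1`, where `d`
is the sum of the `a i`, and let `f j` be even or odd in each variable, as the characters `χ j`
say. If the coefficient of the product of the `t i ^ a i` in the product over `j` of the linear
forms `∑ i, χ j i * t i` is odd, then the functions have a common zero. -/
theorem zero_spheres (a : ι → ℕ) (E : ι → Type) [∀ i, NormedAddCommGroup (E i)]
    [∀ i, NormedSpace ℝ (E i)] [∀ i, FiniteDimensional ℝ (E i)]
    (hE : ∀ i, Module.finrank ℝ (E i) = a i + 1) (hd : ∑ i, a i = d)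
    (χ : Fin d → ι → ZMod 2)
    (hodd : Odd (univ.filter fun σ : Fin d → ι => (∀ j, χ j (σ j) = 1) ∧
      ∀ i, (univ.filter fun j => σ j = i).card = a i).card)
    (f : (∀ i, E i) → Fin d → ℝ) (hf : ContinuousOn f {x | ∀ i, ‖x i‖ = 1})
    (hχ : ∀ x : ∀ i, E i, (∀ i, ‖x i‖ = 1) → ∀ i j,
      f (Function.update x i (-x i)) j = sgn (χ j i) * f x j) :
    ∃ x : ∀ i, E i, (∀ i, ‖x i‖ = 1) ∧ f x = 0 := by
  classical
  have hfr : ∀ i, Module.finrank ℝ (Fin (a i + 1) → ℝ) = Module.finrank ℝ (E i) := by
    intro i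
    rw [hE, Module.finrank_fin_fun]
  let L : ∀ i, (Fin (a i + 1) → ℝ) ≃L[ℝ] E i := fun i => ContinuousLinearEquiv.ofFinrankEq (hfr i)
  let u : ((Σ i, Fin (a i)) → ℝ) → ∀ i, E i := fun y i => L i (up fun l => y ⟨i, l⟩)
  have hu0 : ∀ y i, u y i ≠ 0 := by
    intro y i h
    exact up_ne_zero _ ((L i).map_eq_zero_iff.mp h)
  let X : ((Σ i, Fin (a i)) → ℝ) → ∀ i, E i := fun y i => ‖u y i‖⁻¹ • u y i
  have hX1 : ∀ y i, ‖X y i‖ = 1 := by
    intro y i
    show ‖‖u y i‖⁻¹ • u y i‖ = 1
    rw [norm_smul, norm_inv, norm_norm, inv_mul_cancel₀ (norm_ne_zero_iff.mpr (hu0 y i))]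
  have hXc : Continuous X := by
    refine continuous_pi fun i => ?_
    have h1 : Continuous fun y : (Σ i, Fin (a i)) → ℝ => u y i := by
      refine (L i).continuous.comp (continuous_up.comp ?_)
      exact continuous_pi fun l => continuous_apply _
    exact (h1.norm.inv₀ fun y => norm_ne_zero_iff.mpr (hu0 y i)).smul h1
  have hcard : Fintype.card (Σ i, Fin (a i)) = d := by
    rw [Fintype.card_sigma]
    simp only [Fintype.card_fin]
    exact hd
  have hfib : ∀ i, (univ.filter fun k : Σ i, Fin (a i) => k.1 = i).card = a i := by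
    intro i
    rw [← Fintype.card_subtype]
    have e : {k : Σ i, Fin (a i) // k.1 = i} ≃ Fin (a i) := Equiv.sigmaSubtype i
    rw [Fintype.card_congr e, Fintype.card_fin]
  have hcnt : (cnt (fun k : Σ i, Fin (a i) => k.1) χ : ZMod 2) ≠ 0 := by
    unfold cnt
    simp only [hfib]
    rw [Ne, ZMod.natCast_eq_zero_iff_even, Nat.not_even_iff_odd]
    convert hodd
  obtain ⟨y, hy, hy0⟩ := zero_cube (fun k : Σ i, Fin (a i) => k.1) χ hcard hcnt (fun y => f (X y))
    (hf.comp hXc.continuousOn fun y _ => hX1 y) (by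
      rintro y hy i ⟨⟨i', l⟩, hi, hl⟩ j
      simp only at hi
      subst hi
      have hn : ‖fun l => y ⟨i', l⟩‖ = 1 := by
        refine le_antisymm ?_ ?_
        · rw [pi_norm_le_iff_of_nonneg zero_le_one]
          intro l'
          rw [Real.norm_eq_abs, abs_le]
          exact ⟨hy.1 _, hy.2 _⟩
        · rw [← hl, ← Real.norm_eq_abs]
          exact norm_le_pi_norm (fun l => y ⟨i', l⟩) l
      have h1 : X (negR (fun k : Σ i, Fin (a i) => k.1) i' y) =
          Function.update (X y) i' (-X y i') := by
        funext i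
        by_cases hi : i = i'
        · subst hi
          rw [Function.update_self]
          have h2 : (fun l => negR (fun k : Σ i, Fin (a i) => k.1) i y ⟨i, l⟩) =
              -fun l => y ⟨i, l⟩ := by
            funext l
            show (if i = i then - y ⟨i, l⟩ else y ⟨i, l⟩) = - y ⟨i, l⟩
            rw [if_pos rfl]
          have h3 : u (negR (fun k : Σ i, Fin (a i) => k.1) i y) i = - u y i := by
            show L i (up fun l => negR (fun k : Σ i, Fin (a i) => k.1) i y ⟨i, l⟩) =
              - L i (up fun l => y ⟨i, l⟩)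
            rw [h2, up_neg _ hn, map_neg]
          show ‖u (negR (fun k : Σ i, Fin (a i) => k.1) i y) i‖⁻¹ •
            u (negR (fun k : Σ i, Fin (a i) => k.1) i y) i = -(‖u y i‖⁻¹ • u y i)
          rw [h3, norm_neg, smul_neg]
        · rw [Function.update_of_ne hi]
          have h3 : u (negR (fun k : Σ i, Fin (a i) => k.1) i' y) i = u y i := by
            show L i (up fun l => negR (fun k : Σ i, Fin (a i) => k.1) i' y ⟨i, l⟩) =
              L i (up fun l => y ⟨i, l⟩)
            congr 2
            funext l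
            show (if i = i' then - y ⟨i, l⟩ else y ⟨i, l⟩) = y ⟨i, l⟩
            rw [if_neg hi]
          show ‖u (negR (fun k : Σ i, Fin (a i) => k.1) i' y) i‖⁻¹ •
            u (negR (fun k : Σ i, Fin (a i) => k.1) i' y) i = ‖u y i‖⁻¹ • u y i
          rw [h3]
      show f (X (negR (fun k : Σ i, Fin (a i) => k.1) i' y)) j = sgn (χ j i') * f (X y) j
      rw [h1]
      exact hχ _ (hX1 y) i' j)
  exact ⟨X y, hX1 y, hy0⟩

end Pool.Agent.Helper29.ZBU
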