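import Mathlib

set_option autoImplicit false

/-!
# The theorem of Borsuk and Ulam for products of spheres: sums over flags

The grid of the cube with integral coordinates between `-2 N` and `2 N`: a cell is a family of
integers, the even coordinates are fixed and the odd coordinates are free (the barycentre of the
cell). A maximal chain of cells is given by the top cell, by the order in which the coordinates are
freed, and by signs.
-/

namespace Pool.Agent.Helper29.ZBU

open Finset

variable {κ ι : Type} [Fintype κ] [DecidableEq κ] [DecidableEq ι] {d : ℕ}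

/-- The data of a maximal chain of cells. -/
abbrev Flag (κ : Type) (d : ℕ) : Type := (κ → ℤ) × (Fin d ≃ κ) × (κ → Bool)

/-- The number `0` or `1`. -/
def bi (b : Bool) : ℤ := if b then 1 else 0

/-- The cell of dimension `j` of the chain. -/
def vtx (τ : Flag κ d) (j : ℕ) (k : κ) : ℤ :=
  if (τ.2.1.symm k : ℕ) < j then 2 * τ.1 k + 1 else 2 * (τ.1 k + bi (τ.2.2 k))

/-- The maximal chains of the grid. -/
noncomputable def flags (κ : Type) [Fintype κ] [DecidableEq κ] (d N : ℕ) : Finset (Flag κ d) :=
  (Fintype.piFinset fun _ => Finset.Ico (-(N : ℤ)) N) ×ˢ Finset.univ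

theorem mem_flags {N : ℕ} {τ : Flag κ d} :
    τ ∈ flags κ d N ↔ ∀ k, -(N : ℤ) ≤ τ.1 k ∧ τ.1 k < N := by
  simp [flags, Fintype.mem_piFinset]

/-- A sum over the flags of a function which does not depend on the cell of dimension `l` is
zero. -/
theorem sum_omit {N l : ℕ} (hl : l < d) (g : (ℕ → κ → ℤ) → ZMod 2)
    (hg : ∀ v w, (∀ j, j ≠ l → v j = w j) → g v = g w) :
    ∑ τ ∈ flags κ d N, g (vtx τ) = 0 := by
  rcases Nat.eq_zero_or_pos l with rfl | hpos
  · -- change the vertex
    let inv : Flag κ d → Flag κ d := fun τ =>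
      (τ.1, τ.2.1, Function.update τ.2.2 (τ.2.1 ⟨0, hl⟩) (!τ.2.2 (τ.2.1 ⟨0, hl⟩)))
    refine Finset.sum_involution (fun τ _ => inv τ) ?_ ?_ ?_ ?_
    · intro τ _
      have h1 : g (vtx (inv τ)) = g (vtx τ) := by
        refine hg _ _ fun j hj => ?_
        funext k
        by_cases hk : k = τ.2.1 ⟨0, hl⟩
        · subst hk
          have h2 : ((τ.2.1.symm (τ.2.1 ⟨0, hl⟩) : Fin d) : ℕ) < j := by
            rw [Equiv.symm_apply_apply]
            show 0 < j
            omega
          show (if ((τ.2.1.symm (τ.2.1 ⟨0, hl⟩) : Fin d) : ℕ) < j then _ else _) =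
            (if ((τ.2.1.symm (τ.2.1 ⟨0, hl⟩) : Fin d) : ℕ) < j then _ else _)
          rw [if_pos h2, if_pos h2]
        · show (if _ then _ else 2 * (τ.1 k + bi (Function.update τ.2.2 _ _ k))) = _
          rw [Function.update_of_ne hk]
          rfl
      rw [h1]
      exact CharTwo.add_self_eq_zero _
    · intro τ _ _ h
      have h1 := congrFun (congrArg (fun σ : Flag κ d => σ.2.2) h) (τ.2.1 ⟨0, hl⟩)
      simp [inv] at h1
    · intro τ hτ
      have h1 : ∀ k, -(N : ℤ) ≤ τ.1 k ∧ τ.1 k < N := mem_flags.1 hτ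
      exact (mem_flags (τ := inv τ)).2 h1
    · intro τ _
      show inv (inv τ) = τ
      refine Prod.ext rfl (Prod.ext rfl ?_)
      show Function.update (Function.update τ.2.2 (τ.2.1 ⟨0, hl⟩) (!τ.2.2 (τ.2.1 ⟨0, hl⟩)))
        (τ.2.1 ⟨0, hl⟩) (!(Function.update τ.2.2 (τ.2.1 ⟨0, hl⟩) (!τ.2.2 (τ.2.1 ⟨0, hl⟩))
          (τ.2.1 ⟨0, hl⟩))) = τ.2.2
      rw [Function.update_self, Function.update_idem, Bool.not_not, Function.update_eq_self]
  · -- change the order of two coordinates
    let a : Fin d := ⟨l - 1, by omega⟩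
    let b : Fin d := ⟨l, hl⟩
    have hab : a ≠ b := by
      intro h
      have := congrArg Fin.val h
      simp only [a, b] at this
      omega
    let inv : Flag κ d → Flag κ d := fun τ => (τ.1, (Equiv.swap a b).trans τ.2.1, τ.2.2)
    refine Finset.sum_involution (fun τ _ => inv τ) ?_ ?_ ?_ ?_
    · intro τ _
      have h1 : g (vtx (inv τ)) = g (vtx τ) := by
        refine hg _ _ fun j hj => ?_
        funext k
        have h2 : (((inv τ).2.1.symm k : Fin d) : ℕ) < j ↔ ((τ.2.1.symm k : Fin d) : ℕ) < j := by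
          show ((Equiv.swap a b (τ.2.1.symm k) : Fin d) : ℕ) < j ↔ _
          rcases eq_or_ne (τ.2.1.symm k) a with h | h
          · rw [h, Equiv.swap_apply_left]
            show l < j ↔ l - 1 < j
            omega
          · rcases eq_or_ne (τ.2.1.symm k) b with h' | h'
            · rw [h', Equiv.swap_apply_right]
              show l - 1 < j ↔ l < j
              omega
            · rw [Equiv.swap_apply_of_ne_of_ne h h']
        unfold vtx
        simp only [h2]
        rfl
      rw [h1]
      exact CharTwo.add_self_eq_zero _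
    · intro τ _ _ h
      have h1 := congrArg (fun σ : Flag κ d => σ.2.1 a) h
      have h2 : τ.2.1 (Equiv.swap a b a) = τ.2.1 a := h1
      rw [Equiv.swap_apply_left] at h2
      exact hab (τ.2.1.injective h2).symm
    · intro τ hτ
      have h1 : ∀ k, -(N : ℤ) ≤ τ.1 k ∧ τ.1 k < N := mem_flags.1 hτ
      exact (mem_flags (τ := inv τ)).2 h1
    · intro τ _
      show inv (inv τ) = τ
      refine Prod.ext rfl (Prod.ext ?_ rfl)
      show (Equiv.swap a b).trans ((Equiv.swap a b).trans τ.2.1) = τ.2.1
      rw [← Equiv.trans_assoc, Equiv.swap_swap, Equiv.refl_trans]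

/-- The negation of the coordinates of the block `i`. -/
def neg (β : κ → ι) (i : ι) (x : κ → ℤ) : κ → ℤ := fun k => if β k = i then -x k else x k

/-- The part of the boundary of the cube for the block `i`. -/
def Bd (β : κ → ι) (N : ℕ) (i : ι) (x : κ → ℤ) : Prop := ∃ k, β k = i ∧ |x k| = 2 * (N : ℤ)

/-- A sum over the flags of a function which does not depend on the cell of dimension `d` and is
invariant for the identifications of the boundary is zero. -/
theorem sum_top {N : ℕ} (hd : 0 < d) (β : κ → ι) (g : (ℕ → κ → ℤ) → ZMod 2)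
    (hg : ∀ v w, (∀ j, j < d → v j = w j) → g v = g w)
    (hg' : ∀ v i, (∀ j, j < d → Bd β N i (v j)) → g (fun j => neg β i (v j)) = g v) :
    ∑ τ ∈ flags κ d N, g (vtx τ) = 0 := by
  classical
  let last : Fin d := ⟨d - 1, by omega⟩
  let kk : Flag κ d → κ := fun τ => τ.2.1 last
  let ex : Flag κ d → Prop := fun τ => |τ.1 (kk τ) + bi (τ.2.2 (kk τ))| = (N : ℤ)
  let fl : Flag κ d → Flag κ d := fun τ =>
    (Function.update τ.1 (kk τ) (τ.1 (kk τ) + (2 * bi (τ.2.2 (kk τ)) - 1)), τ.2.1,
      Function.update τ.2.2 (kk τ) (!τ.2.2 (kk τ)))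
  let ng : Flag κ d → Flag κ d := fun τ =>
    (fun k => if β k = β (kk τ) then -τ.1 k - 1 else τ.1 k, τ.2.1,
      fun k => if β k = β (kk τ) then !τ.2.2 k else τ.2.2 k)
  let inv : Flag κ d → Flag κ d := fun τ => if ex τ then ng τ else fl τ
  have hbi : ∀ b : Bool, bi (!b) = 1 - bi b := by
    intro b
    cases b <;> simp [bi]
  have hkng : ∀ τ, kk (ng τ) = kk τ := fun τ => rfl
  have hkfl : ∀ τ, kk (fl τ) = kk τ := fun τ => rfl
  have hexng : ∀ τ, ex (ng τ) ↔ ex τ := by
    intro τ
    show |(if β (kk τ) = β (kk τ) then -τ.1 (kk τ) - 1 else τ.1 (kk τ)) +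
      bi (if β (kk τ) = β (kk τ) then !τ.2.2 (kk τ) else τ.2.2 (kk τ))| = (N : ℤ) ↔
      |τ.1 (kk τ) + bi (τ.2.2 (kk τ))| = (N : ℤ)
    rw [if_pos rfl, if_pos rfl, hbi, ← abs_neg]
    have : -(-τ.1 (kk τ) - 1 + (1 - bi (τ.2.2 (kk τ)))) = τ.1 (kk τ) + bi (τ.2.2 (kk τ)) := by ring
    rw [this]
  have hexfl : ∀ τ, ex (fl τ) ↔ ex τ := by
    intro τ
    show |Function.update τ.1 (kk τ) (τ.1 (kk τ) + (2 * bi (τ.2.2 (kk τ)) - 1)) (kk τ) +
      bi (Function.update τ.2.2 (kk τ) (!τ.2.2 (kk τ)) (kk τ))| = (N : ℤ) ↔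
      |τ.1 (kk τ) + bi (τ.2.2 (kk τ))| = (N : ℤ)
    rw [Function.update_self, Function.update_self, hbi]
    have : τ.1 (kk τ) + (2 * bi (τ.2.2 (kk τ)) - 1) + (1 - bi (τ.2.2 (kk τ))) =
      τ.1 (kk τ) + bi (τ.2.2 (kk τ)) := by ring
    rw [this]
  refine Finset.sum_involution (fun τ _ => inv τ) ?_ ?_ ?_ ?_
  · intro τ _
    have h1 : g (vtx (inv τ)) = g (vtx τ) := by
      by_cases h : ex τ
      · show g (vtx (if ex τ then ng τ else fl τ)) = _
        rw [if_pos h]
        have h2 : vtx (ng τ) = fun j => neg β (β (kk τ)) (vtx τ j) := by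
          funext j k
          show (if ((τ.2.1.symm k : Fin d) : ℕ) < j then
              2 * (if β k = β (kk τ) then -τ.1 k - 1 else τ.1 k) + 1 else
              2 * ((if β k = β (kk τ) then -τ.1 k - 1 else τ.1 k) +
                bi (if β k = β (kk τ) then !τ.2.2 k else τ.2.2 k))) =
            if β k = β (kk τ) then -(if ((τ.2.1.symm k : Fin d) : ℕ) < j then 2 * τ.1 k + 1 else
              2 * (τ.1 k + bi (τ.2.2 k))) else (if ((τ.2.1.symm k : Fin d) : ℕ) < j then
                2 * τ.1 k + 1 else 2 * (τ.1 k + bi (τ.2.2 k)))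
          by_cases hb : β k = β (kk τ)
          · simp only [hb, if_true]
            split_ifs
            · ring
            · rw [hbi]
              ring
          · simp only [hb, if_false]
        rw [h2]
        refine hg' _ _ fun j hj => ⟨kk τ, rfl, ?_⟩
        have h3 : ¬ ((τ.2.1.symm (kk τ) : Fin d) : ℕ) < j := by
          show ¬ ((τ.2.1.symm (τ.2.1 last) : Fin d) : ℕ) < j
          rw [Equiv.symm_apply_apply]
          show ¬ d - 1 < j
          omega
        show |if ((τ.2.1.symm (kk τ) : Fin d) : ℕ) < j then _ else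
          2 * (τ.1 (kk τ) + bi (τ.2.2 (kk τ)))| = _
        rw [if_neg h3, abs_mul, h]
        rfl
      · show g (vtx (if ex τ then ng τ else fl τ)) = _
        rw [if_neg h]
        refine hg _ _ fun j hj => ?_
        funext k
        by_cases hk : k = kk τ
        · subst hk
          have h3 : ¬ ((τ.2.1.symm (kk τ) : Fin d) : ℕ) < j := by
            show ¬ ((τ.2.1.symm (τ.2.1 last) : Fin d) : ℕ) < j
            rw [Equiv.symm_apply_apply]
            show ¬ d - 1 < j
            omega
          show (if ((τ.2.1.symm (kk τ) : Fin d) : ℕ) < j then _ else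
            2 * (Function.update τ.1 (kk τ) (τ.1 (kk τ) + (2 * bi (τ.2.2 (kk τ)) - 1)) (kk τ) +
              bi (Function.update τ.2.2 (kk τ) (!τ.2.2 (kk τ)) (kk τ)))) =
            (if ((τ.2.1.symm (kk τ) : Fin d) : ℕ) < j then _ else
              2 * (τ.1 (kk τ) + bi (τ.2.2 (kk τ))))
          rw [if_neg h3, if_neg h3, Function.update_self, Function.update_self, hbi]
          ring
        · show (if ((τ.2.1.symm k : Fin d) : ℕ) < j then
            2 * (Function.update τ.1 (kk τ) _ k) + 1 else
            2 * (Function.update τ.1 (kk τ) _ k + bi (Function.update τ.2.2 (kk τ) _ k))) = _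
          rw [Function.update_of_ne hk, Function.update_of_ne hk]
          rfl
    rw [h1]
    exact CharTwo.add_self_eq_zero _
  · intro τ _ _ h
    have h1 := congrFun (congrArg (fun σ : Flag κ d => σ.2.2) h) (kk τ)
    by_cases he : ex τ
    · simp [inv, he, ng] at h1
    · simp [inv, he, fl] at h1
  · intro τ hτ
    rw [mem_flags] at hτ ⊢
    intro k
    by_cases he : ex τ
    · have h2 : inv τ = ng τ := if_pos he
      rw [h2]
      show -(N : ℤ) ≤ (if β k = β (kk τ) then -τ.1 k - 1 else τ.1 k) ∧
        (if β k = β (kk τ) then -τ.1 k - 1 else τ.1 k) < N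
      have := hτ k
      split_ifs
      · omega
      · exact this
    · have h2 : inv τ = fl τ := if_neg he
      rw [h2]
      show -(N : ℤ) ≤ Function.update τ.1 (kk τ) _ k ∧ Function.update τ.1 (kk τ) _ k < N
      by_cases hk : k = kk τ
      · subst hk
        rw [Function.update_self]
        have h3 := hτ (kk τ)
        have h4 : |τ.1 (kk τ) + bi (τ.2.2 (kk τ))| ≠ (N : ℤ) := he
        have h5 : bi (τ.2.2 (kk τ)) = 0 ∨ bi (τ.2.2 (kk τ)) = 1 := by
          cases τ.2.2 (kk τ) <;> simp [bi]
        rcases h5 with h5 | h5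
        · rw [h5, add_zero] at h4
          rw [h5]
          have h6 : τ.1 (kk τ) ≠ -(N : ℤ) := by
            intro h
            rw [h, abs_neg] at h4
            exact h4 (abs_of_nonneg (Int.natCast_nonneg N))
          omega
        · rw [h5] at h4 ⊢
          have h6 : τ.1 (kk τ) + 1 ≠ (N : ℤ) := by
            intro h
            rw [h] at h4
            exact h4 (abs_of_nonneg (Int.natCast_nonneg N))
          omega
      · rw [Function.update_of_ne hk]
        exact hτ k
  · intro τ _
    show inv (inv τ) = τ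
    by_cases he : ex τ
    · have h2 : inv τ = ng τ := if_pos he
      have h3 : inv (ng τ) = ng (ng τ) := if_pos ((hexng τ).2 he)
      rw [h2, h3]
      refine Prod.ext ?_ (Prod.ext rfl ?_)
      · funext k
        show (if β k = β (kk τ) then -(if β k = β (kk τ) then -τ.1 k - 1 else τ.1 k) - 1 else
          (if β k = β (kk τ) then -τ.1 k - 1 else τ.1 k)) = τ.1 k
        split_ifs
        · ring
        · rfl
      · funext k
        show (if β k = β (kk τ) then !(if β k = β (kk τ) then !τ.2.2 k else τ.2.2 k) else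
          (if β k = β (kk τ) then !τ.2.2 k else τ.2.2 k)) = τ.2.2 k
        split_ifs
        · simp
        · rfl
    · have h2 : inv τ = fl τ := if_neg he
      have h3 : inv (fl τ) = fl (fl τ) := if_neg fun h => he ((hexfl τ).1 h)
      rw [h2, h3]
      refine Prod.ext ?_ (Prod.ext rfl ?_)
      · show Function.update (Function.update τ.1 (kk τ) _) (kk τ)
          (Function.update τ.1 (kk τ) (τ.1 (kk τ) + (2 * bi (τ.2.2 (kk τ)) - 1)) (kk τ) +
          (2 * bi (Function.update τ.2.2 (kk τ) (!τ.2.2 (kk τ)) (kk τ)) - 1)) = τ.1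
        rw [Function.update_self, Function.update_self, hbi, Function.update_idem]
        have h4 : τ.1 (kk τ) + (2 * bi (τ.2.2 (kk τ)) - 1) + (2 * (1 - bi (τ.2.2 (kk τ))) - 1) =
          τ.1 (kk τ) := by ring
        rw [h4, Function.update_eq_self]
      · show Function.update (Function.update τ.2.2 (kk τ) _) (kk τ)
          (!(Function.update τ.2.2 (kk τ) (!τ.2.2 (kk τ)) (kk τ))) = τ.2.2
        rw [Function.update_self, Function.update_idem, Bool.not_not, Function.update_eq_self]

end Pool.Agent.Helper29.ZBU
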