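import Pool.Agent.Helper29.ZBU.Rho

set_option autoImplicit false

/-!
# The theorem of Borsuk and Ulam for products of spheres: the value of the sum
-/

namespace Pool.Agent.Helper29.ZBU

open Finset

variable {κ ι : Type} [Fintype κ] [DecidableEq κ] [DecidableEq ι] {d N : ℕ}

theorem Eqv.add {β : κ → ι} {χ χ' : ι → ZMod 2} {s s' : (κ → ℤ) → ZMod 2}
    (h : Eqv β N χ s) (h' : Eqv β N χ' s') : Eqv β N (χ + χ') (s + s') := by
  intro i x hx
  rw [Pi.add_apply, Pi.add_apply, Pi.add_apply, h i x hx, h' i x hx]
  ring

theorem T_update_add (s : Fin d → (κ → ℤ) → ZMod 2) (j : Fin d) (e : (κ → ℤ) → ZMod 2) :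
    T N (Function.update s j (s j + e)) = T N s + T N (Function.update s j e) := by
  unfold T
  rw [← Finset.sum_add_distrib]
  refine Finset.sum_congr rfl fun τ _ => ?_
  rw [← Finset.mul_prod_erase univ _ (mem_univ j),
    ← Finset.mul_prod_erase univ (fun j => s j (vtx τ j)) (mem_univ j),
    ← Finset.mul_prod_erase univ (fun j' => Function.update s j e j' (vtx τ j')) (mem_univ j)]
  rw [Function.update_self, Function.update_self]
  have h1 : ∀ g : (κ → ℤ) → ZMod 2,
      ∏ x ∈ univ.erase j, Function.update s j g x (vtx τ x) = ∏ x ∈ univ.erase j, s x (vtx τ x) := by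
    intro g
    refine Finset.prod_congr rfl fun x hx => ?_
    rw [Function.update_of_ne (Finset.ne_of_mem_erase hx)]
  rw [h1, h1, Pi.add_apply]
  ring

/-- The sum depends only on the characters. -/
theorem T_congr {β : κ → ι} {χ : Fin d → ι → ZMod 2} {s s' : Fin d → (κ → ℤ) → ZMod 2}
    (hs : ∀ j, Eqv β N (χ j) (s j)) (hs' : ∀ j, Eqv β N (χ j) (s' j)) : T N s = T N s' := by
  classical
  have key : ∀ J : Finset (Fin d), T N s = T N (fun j => if j ∈ J then s' j else s j) := by
    intro J
    induction J using Finset.induction_on with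
    | empty => simp
    | insert a J ha ih =>
      rw [ih]
      have h1 : (fun j => if j ∈ insert a J then s' j else s j) =
          Function.update (fun j => if j ∈ J then s' j else s j) a
            ((fun j => if j ∈ J then s' j else s j) a + (s a + s' a)) := by
        funext j
        by_cases hj : j = a
        · subst hj
          rw [Function.update_self]
          show (if j ∈ insert j J then s' j else s j) = (if j ∈ J then s' j else s j) + (s j + s' j)
          rw [if_pos (Finset.mem_insert_self _ _), if_neg ha, ← add_assoc]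
          funext x
          show s' j x = s j x + s j x + s' j x
          rw [CharTwo.add_self_eq_zero, zero_add]
        · rw [Function.update_of_ne hj]
          show (if j ∈ insert a J then s' j else s j) = if j ∈ J then s' j else s j
          by_cases hjJ : j ∈ J
          · rw [if_pos (Finset.mem_insert_of_mem hjJ), if_pos hjJ]
          · rw [if_neg (by simp [hj, hjJ]), if_neg hjJ]
      rw [h1, T_update_add]
      have h2 : T N (Function.update (fun j => if j ∈ J then s' j else s j) a (s a + s' a)) = 0 := by
        refine T_zero (β := β) (χ := χ) a ?_ ?_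
        · intro j hj
          rw [Function.update_of_ne hj]
          show Eqv β N (χ j) (if j ∈ J then s' j else s j)
          by_cases hjJ : j ∈ J
          · rw [if_pos hjJ]
            exact hs' j
          · rw [if_neg hjJ]
            exact hs j
        · rw [Function.update_self]
          have h3 := (hs a).add (hs' a)
          have h4 : χ a + χ a = 0 := by
            funext i
            exact CharTwo.add_self_eq_zero _
          rwa [h4] at h3
      rw [h2, add_zero]
  have := key univ
  simpa using this

/-- The sum for the coordinate functions. -/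
theorem T_match (β : κ → ι) (hN : 0 < N) (e : Fin d ≃ κ) :
    T N (fun j => sg β N (e j)) = 1 := by
  have hN' : (0 : ℤ) < N := by exact_mod_cast hN
  rw [← T_eq]
  let τ₀ : Flag κ d := (fun _ => -1, e, fun _ => true)
  have hτ₀ : τ₀ ∈ flags κ d N := by
    rw [mem_flags]
    intro k
    show -(N : ℤ) ≤ -1 ∧ (-1 : ℤ) < N
    omega
  rw [Finset.sum_eq_single_of_mem τ₀ hτ₀]
  · refine Finset.prod_eq_one fun j _ => ?_
    have h1 : vtx τ₀ j (e j) = 0 := by
      show (if ((e.symm (e j) : Fin d) : ℕ) < j then _ else 2 * (-1 + bi true)) = 0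
      rw [Equiv.symm_apply_apply, if_neg (lt_irrefl _)]
      rfl
    have h2 : vtx τ₀ (j + 1) (e j) = -1 := by
      show (if ((e.symm (e j) : Fin d) : ℕ) < (j : ℕ) + 1 then 2 * (-1 : ℤ) + 1 else _) = -1
      rw [Equiv.symm_apply_apply, if_pos (Nat.lt_succ_self _)]
      rfl
    have h3 : rho β N (β (e j)) (vtx τ₀ j) = 0 := by
      refine rho_zero β ?_
      rintro ⟨k, -, hk⟩
      have : vtx τ₀ j k = -1 ∨ vtx τ₀ j k = 0 := by
        show (if ((e.symm k : Fin d) : ℕ) < j then 2 * (-1 : ℤ) + 1 else 2 * (-1 + bi true)) = -1 ∨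
          (if ((e.symm k : Fin d) : ℕ) < j then 2 * (-1 : ℤ) + 1 else 2 * (-1 + bi true)) = 0
        by_cases h : ((e.symm k : Fin d) : ℕ) < j
        · left
          rw [if_pos h]
          rfl
        · right
          rw [if_neg h]
          rfl
      rcases this with h | h
      · rw [h] at hk
        have : |(-1 : ℤ)| = 1 := rfl
        omega
      · rw [h, abs_zero] at hk
        omega
    unfold sg
    rw [h1, h2, h3, if_neg (lt_irrefl _), if_neg (lt_irrefl _), if_pos (by omega)]
    decide
  · intro τ _ hne
    by_contra hc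
    rw [Finset.prod_eq_zero_iff] at hc
    have hc' : ∀ j : Fin d, sg β N (e j) (vtx τ j) + sg β N (e j) (vtx τ (j + 1)) ≠ 0 :=
      fun j h => hc ⟨j, mem_univ _, h⟩
    apply hne
    have h0 : ∀ k, τ.1 k + bi (τ.2.2 k) = 0 := by
      intro k
      have := (sg_change β τ (e (e.symm k)) _ (hc' (e.symm k))).1
      rwa [Equiv.apply_symm_apply] at this
    have h1 : ∀ j : Fin d, (j : ℕ) ≤ (τ.2.1.symm (e j) : ℕ) := fun j =>
      (sg_change β τ (e j) _ (hc' j)).2
    -- the bijection is the identity
    have h2 : ∀ n : ℕ, ∀ j : Fin d, d ≤ (j : ℕ) + n → τ.2.1.symm (e j) = j := by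
      intro n
      induction n with
      | zero => intro j hj; have := j.2; omega
      | succ n ih =>
        intro j hj
        refine Fin.ext (le_antisymm ?_ (h1 j))
        by_contra hlt
        push Not at hlt
        have h3 := ih (τ.2.1.symm (e j)) (by omega)
        have h4 := e.injective (τ.2.1.symm.injective h3)
        rw [h4] at hlt
        exact lt_irrefl _ hlt
    have h3 : τ.2.1 = e := by
      ext j
      have := h2 d j (by omega)
      rw [Equiv.symm_apply_eq] at this
      exact this.symm
    have h4 : ∀ k, τ.2.2 k = true := by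
      intro k
      by_contra hk
      have hk' : τ.2.2 k = false := by simpa using hk
      have hj := hc' (e.symm k)
      rw [Equiv.apply_symm_apply] at hj
      apply hj
      have h5 : vtx τ (e.symm k) k = 0 := by
        unfold vtx
        rw [h3, if_neg (lt_irrefl _), h0 k, mul_zero]
      have h6 : vtx τ ((e.symm k : ℕ) + 1) k = 1 := by
        unfold vtx
        rw [h3, if_pos (Nat.lt_succ_self _)]
        have := h0 k
        rw [hk'] at this
        simp only [bi, Bool.false_eq_true, if_false, add_zero] at this
        rw [this]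
        rfl
      have h7 : rho β N (β k) (vtx τ (e.symm k)) = 0 := by
        refine rho_zero β ?_
        rintro ⟨k', -, hk'⟩
        unfold vtx at hk'
        by_cases h : ((τ.2.1.symm k' : Fin d) : ℕ) < (e.symm k : ℕ)
        · rw [if_pos h] at hk'
          rcases abs_cases (2 * τ.1 k' + 1) with h4 | h4 <;> omega
        · rw [if_neg h, h0 k', mul_zero, abs_zero] at hk'
          omega
      unfold sg
      rw [h5, h6, h7, if_neg (lt_irrefl _), if_neg (lt_irrefl _), if_neg (by omega),
        if_pos (by omega)]
      decide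
    refine Prod.ext ?_ (Prod.ext h3 ?_)
    · funext k
      have := h0 k
      rw [h4 k] at this
      simp only [bi, if_true] at this
      show τ.1 k = -1
      omega
    · funext k
      exact h4 k

/-- The sum for the standard functions when the block `i` has too many of them. -/
theorem T_mismatch (β : κ → ι) (hN : 0 < N) (σ : Fin d → ι) (i : ι)
    (h : (univ.filter fun k => β k = i).card < (univ.filter fun j => σ j = i).card) :
    T N (fun j => rho β N (σ j)) = 0 := by
  classical
  have hN' : (0 : ℤ) < N := by exact_mod_cast hN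
  have hc : Fintype.card {k // β k = i} < Fintype.card {j // σ j = i} := by
    rw [Fintype.card_subtype, Fintype.card_subtype]
    exact h
  obtain ⟨f⟩ := Function.Embedding.nonempty_of_card_le hc.le
  have hns : ¬ Function.Surjective f := by
    intro hs
    have := Fintype.card_le_of_surjective f hs
    omega
  rw [Function.Surjective] at hns
  push Not at hns
  obtain ⟨j₁, hj₁⟩ := hns
  let s' : Fin d → (κ → ℤ) → ZMod 2 := fun j =>
    if h : ∃ k, ((f k : {j // σ j = i}) : Fin d) = j then sg β N (h.choose : κ) else
      rho β N (σ j)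
  have hs' : ∀ j, Eqv β N (Pi.single (σ j) 1) (s' j) := by
    intro j
    by_cases h : ∃ k, ((f k : {j // σ j = i}) : Fin d) = j
    · have h1 : s' j = sg β N (h.choose : κ) := dif_pos h
      rw [h1]
      have h2 : β (h.choose : κ) = σ j := by
        rw [(h.choose).2, ← h.choose_spec, (f h.choose).2]
      rw [← h2]
      exact eqv_sg β hN _
    · have h1 : s' j = rho β N (σ j) := dif_neg h
      rw [h1]
      exact eqv_rho β hN _
  rw [T_congr (fun j => eqv_rho β hN (σ j)) hs', ← T_eq]
  refine Finset.sum_eq_zero fun τ _ => ?_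
  by_contra hc'
  rw [Finset.prod_eq_zero_iff] at hc'
  have hc'' : ∀ j : Fin d, s' j (vtx τ j) + s' j (vtx τ (j + 1)) ≠ 0 :=
    fun j h => hc' ⟨j, mem_univ _, h⟩
  have h1 : s' j₁ = rho β N i := by
    have h2 : ¬ ∃ k, ((f k : {j // σ j = i}) : Fin d) = j₁ := by
      rintro ⟨k, hk⟩
      exact hj₁ k (Subtype.ext hk)
    have h3 : s' j₁ = rho β N (σ j₁) := dif_neg h2
    rw [h3, j₁.2]
  have h2 := hc'' j₁
  rw [h1] at h2
  obtain ⟨k, hk1, hk2⟩ := rho_change β hN h2
  have h3 : s' (f ⟨k, hk1⟩) = sg β N k := by
    have h4 : ∃ k', ((f k' : {j // σ j = i}) : Fin d) = f ⟨k, hk1⟩ := ⟨_, rfl⟩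
    have h5 : s' (f ⟨k, hk1⟩) = sg β N (h4.choose : κ) := dif_pos h4
    have h6 := f.injective (Subtype.ext h4.choose_spec)
    rw [h5, h6]
  have h4 := hc'' (f ⟨k, hk1⟩)
  rw [h3] at h4
  have h5 := (sg_change β τ k _ h4).1
  rw [h5, abs_zero] at hk2
  omega

/-- The value of the sum. -/
theorem T_count [Fintype ι] (β : κ → ι) (hN : 0 < N) (hd : Fintype.card κ = d)
    {χ : Fin d → ι → ZMod 2} {s : Fin d → (κ → ℤ) → ZMod 2}
    (hs : ∀ j, Eqv β N (χ j) (s j)) :
    T N s = ((univ.filter fun σ : Fin d → ι => (∀ j, χ j (σ j) = 1) ∧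
      ∀ i, (univ.filter fun j => σ j = i).card = (univ.filter fun k => β k = i).card).card :
        ZMod 2) := by
  classical
  have h1 : ∀ j, Eqv β N (χ j) (fun x => ∑ i, χ j i * rho β N i x) := by
    intro j i' x hx
    show ∑ i, χ j i * rho β N i (neg β i' x) = ∑ i, χ j i * rho β N i x + χ j i'
    have h2 : ∀ i, χ j i * rho β N i (neg β i' x) = χ j i * rho β N i x +
        if i = i' then χ j i' else 0 := by
      intro i
      have h3 := eqv_rho β hN i i' x hx
      rw [h3, mul_add]
      congr 1
      by_cases hi : i = i'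
      · subst hi
        rw [Pi.single_eq_same, if_pos rfl, mul_one]
      · rw [Pi.single_eq_of_ne (fun h => hi h.symm), if_neg hi, mul_zero]
    simp only [h2]
    rw [Finset.sum_add_distrib, Finset.sum_ite_eq' univ i', if_pos (mem_univ _)]
  rw [T_congr hs h1]
  have h2 : T N (fun (j : Fin d) (x : κ → ℤ) => ∑ i, χ j i * rho β N i x) =
      ∑ σ : Fin d → ι, (∏ j, χ j (σ j)) * T N (fun j => rho β N (σ j)) := by
    unfold T
    have h3 : ∀ τ : Flag κ d, ∏ j : Fin d, ∑ i, χ j i * rho β N i (vtx τ j) =
        ∑ σ : Fin d → ι, ∏ j, (χ j (σ j) * rho β N (σ j) (vtx τ j)) := by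
      intro τ
      rw [Finset.prod_univ_sum, Fintype.piFinset_univ]
    simp only [h3]
    rw [Finset.sum_comm]
    refine Finset.sum_congr rfl fun σ _ => ?_
    rw [Finset.mul_sum]
    refine Finset.sum_congr rfl fun τ _ => ?_
    rw [Finset.prod_mul_distrib]
  rw [h2, Finset.card_filter]
  push_cast
  refine Finset.sum_congr rfl fun σ _ => ?_
  by_cases hm : ∀ i, (univ.filter fun j => σ j = i).card = (univ.filter fun k => β k = i).card
  · -- equal fibres
    have h3 : ∃ e : Fin d ≃ κ, ∀ j, β (e j) = σ j := by
      have h4 : ∀ i, Nonempty ({j // σ j = i} ≃ {k // β k = i}) := by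
        intro i
        refine ⟨Fintype.equivOfCardEq ?_⟩
        rw [Fintype.card_subtype, Fintype.card_subtype]
        exact hm i
      let F : ∀ i, {j // σ j = i} ≃ {k // β k = i} := fun i => (h4 i).some
      let e : Fin d ≃ κ := (Equiv.sigmaFiberEquiv σ).symm.trans
        ((Equiv.sigmaCongrRight F).trans (Equiv.sigmaFiberEquiv β))
      refine ⟨e, fun j => ?_⟩
      exact (F (σ j) ⟨j, rfl⟩).2
    obtain ⟨e, he⟩ := h3
    have h5 : T N (fun j => rho β N (σ j)) = 1 := by
      rw [T_congr (fun j => eqv_rho β hN (σ j)) (s' := fun j => sg β N (e j)) fun j => ?_,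
        T_match β hN e]
      rw [← he j]
      exact eqv_sg β hN _
    rw [h5, mul_one]
    by_cases h6 : ∀ j, χ j (σ j) = 1
    · rw [if_pos ⟨h6, hm⟩]
      exact Finset.prod_eq_one fun j _ => h6 j
    · rw [if_neg (fun h => h6 h.1)]
      push Not at h6
      obtain ⟨j, hj⟩ := h6
      refine Finset.prod_eq_zero (mem_univ j) ?_
      have : ∀ a : ZMod 2, a ≠ 1 → a = 0 := by decide
      exact this _ hj
  · rw [if_neg (fun h => hm h.2)]
    -- there is a block with too many functions
    have h3 : ∃ i, (univ.filter fun k => β k = i).card < (univ.filter fun j => σ j = i).card := by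
      by_contra hc
      push Not at hc
      apply hm
      have h4 : ∑ i, (univ.filter fun j => σ j = i).card = ∑ i, (univ.filter fun k => β k = i).card := by
        rw [← Finset.card_eq_sum_card_fiberwise (f := σ) (t := univ) (fun _ _ => mem_univ _),
          ← Finset.card_eq_sum_card_fiberwise (f := β) (t := univ) (fun _ _ => mem_univ _)]
        rw [Finset.card_univ, Finset.card_univ, Fintype.card_fin, hd]
      intro i
      exact ((Finset.sum_eq_sum_iff_of_le fun i _ => hc i).mp h4) i (mem_univ i)
    obtain ⟨i, hi⟩ := h3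
    rw [T_mismatch β hN σ i hi, mul_zero]

end Pool.Agent.Helper29.ZBU
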