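import Pool.Agent.Helper29.ZBU.T

set_option autoImplicit false

/-!
# The theorem of Borsuk and Ulam for products of spheres: standard functions
-/

namespace Pool.Agent.Helper29.ZBU

open Finset

variable {κ ι : Type} [Fintype κ] [DecidableEq κ] [DecidableEq ι] {d N : ℕ}

/-- The sign of a chosen coordinate with the property `P`, zero when there is none. -/
noncomputable def rho' (P : κ → Prop) (x : κ → ℤ) : ZMod 2 :=
  open Classical in if h : ∃ k, P k then (if x h.choose < 0 then 1 else 0) else 0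

/-- The sign of a boundary coordinate of the block `i`. -/
noncomputable def rho (β : κ → ι) (N : ℕ) (i : ι) (x : κ → ℤ) : ZMod 2 :=
  rho' (fun k => β k = i ∧ |x k| = 2 * (N : ℤ)) x

/-- The sign of the coordinate `k`. -/
noncomputable def sg (β : κ → ι) (N : ℕ) (k : κ) (x : κ → ℤ) : ZMod 2 :=
  if x k < 0 then 1 else if 0 < x k then 0 else rho β N (β k) x

theorem pred_neg (β : κ → ι) (N : ℕ) (i i' : ι) (x : κ → ℤ) :
    (fun k => β k = i ∧ |neg β i' x k| = 2 * (N : ℤ)) =
      fun k => β k = i ∧ |x k| = 2 * (N : ℤ) := by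
  funext k
  unfold neg
  by_cases h : β k = i'
  · rw [if_pos h, abs_neg]
  · rw [if_neg h]

theorem rho_neg_self (β : κ → ι) {N : ℕ} (hN : 0 < N) (i : ι) (x : κ → ℤ) (h : Bd β N i x) :
    rho β N i (neg β i x) = rho β N i x + 1 := by
  classical
  unfold rho
  rw [pred_neg]
  unfold rho'
  have h' : ∃ k, β k = i ∧ |x k| = 2 * (N : ℤ) := h
  rw [dif_pos h', dif_pos h']
  obtain ⟨h1, h2⟩ := h'.choose_spec
  have h3 : neg β i x h'.choose = - x h'.choose := by
    unfold neg
    rw [if_pos h1]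
  rw [h3]
  have hN' : (0 : ℤ) < N := by exact_mod_cast hN
  by_cases h4 : x h'.choose < 0
  · rw [if_neg (by omega), if_pos h4]
    decide
  · rw [if_neg h4]
    have h5 : x h'.choose ≠ 0 := by
      intro h0
      rw [h0, abs_zero] at h2
      omega
    rw [if_pos (by omega)]
    decide

theorem rho_neg_ne (β : κ → ι) {N : ℕ} {i i' : ι} (hi : i ≠ i') (x : κ → ℤ) :
    rho β N i (neg β i' x) = rho β N i x := by
  classical
  unfold rho
  rw [pred_neg]
  unfold rho'
  by_cases h' : ∃ k, β k = i ∧ |x k| = 2 * (N : ℤ)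
  · rw [dif_pos h', dif_pos h']
    obtain ⟨h1, h2⟩ := h'.choose_spec
    have h3 : neg β i' x h'.choose = x h'.choose := by
      unfold neg
      rw [if_neg (fun h => hi (h1.symm.trans h))]
    rw [h3]
  · rw [dif_neg h', dif_neg h']

theorem rho_zero (β : κ → ι) {N : ℕ} {i : ι} {x : κ → ℤ} (h : ¬ Bd β N i x) :
    rho β N i x = 0 := by
  classical
  unfold rho rho'
  rw [dif_neg]
  exact h

theorem eqv_rho (β : κ → ι) {N : ℕ} (hN : 0 < N) (i : ι) :
    Eqv β N (Pi.single i 1) (rho β N i) := by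
  intro i' x h
  by_cases hi : i = i'
  · subst hi
    rw [Pi.single_eq_same, rho_neg_self β hN i x h]
  · rw [Pi.single_eq_of_ne (fun h => hi h.symm), rho_neg_ne β hi, add_zero]

theorem eqv_sg (β : κ → ι) {N : ℕ} (hN : 0 < N) (k : κ) :
    Eqv β N (Pi.single (β k) 1) (sg β N k) := by
  intro i' x h
  unfold sg
  by_cases hi : β k = i'
  · subst hi
    rw [Pi.single_eq_same, rho_neg_self β hN _ x h]
    have h3 : neg β (β k) x k = - x k := by
      unfold neg
      rw [if_pos rfl]
    rw [h3]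
    rcases lt_trichotomy (x k) 0 with h4 | h4 | h4
    · rw [if_neg (by omega), if_pos (by omega), if_pos h4]
      decide
    · rw [if_neg (by omega), if_neg (by omega), if_neg (by omega), if_neg (by omega)]
    · rw [if_pos (by omega), if_neg (by omega), if_pos h4]
      decide
  · rw [Pi.single_eq_of_ne (fun h => hi h.symm), rho_neg_ne β hi, add_zero]
    have h3 : neg β i' x k = x k := by
      unfold neg
      rw [if_neg hi]
    rw [h3]

/-- A change of the sign of the coordinate `k` along an edge of a chain. -/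
theorem sg_change (β : κ → ι) {N : ℕ} (τ : Flag κ d) (k : κ) (j : ℕ)
    (h : sg β N k (vtx τ j) + sg β N k (vtx τ (j + 1)) ≠ 0) :
    τ.1 k + bi (τ.2.2 k) = 0 ∧ j ≤ (τ.2.1.symm k : ℕ) := by
  have hne : sg β N k (vtx τ j) ≠ sg β N k (vtx τ (j + 1)) := by
    intro he
    rw [he] at h
    exact h (CharTwo.add_self_eq_zero _)
  by_contra hc
  apply hne
  by_cases hj : j ≤ (τ.2.1.symm k : ℕ)
  · have h0 : τ.1 k + bi (τ.2.2 k) ≠ 0 := fun h0 => hc ⟨h0, hj⟩
    have h1 : vtx τ j k = 2 * (τ.1 k + bi (τ.2.2 k)) := by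
      unfold vtx
      rw [if_neg (by omega)]
    have hb : bi (τ.2.2 k) = 0 ∨ bi (τ.2.2 k) = 1 := by
      cases τ.2.2 k <;> simp [bi]
    have h2 : vtx τ (j + 1) k = 2 * τ.1 k + 1 ∨
        vtx τ (j + 1) k = 2 * (τ.1 k + bi (τ.2.2 k)) := by
      unfold vtx
      by_cases h3 : (τ.2.1.symm k : ℕ) < j + 1
      · left
        rw [if_pos h3]
      · right
        rw [if_neg h3]
    unfold sg
    by_cases h4 : vtx τ j k < 0
    · rw [if_pos h4, if_pos (by omega)]
    · have h5 : 0 < vtx τ j k := by omega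
      rw [if_neg h4, if_pos h5, if_neg (by omega), if_pos (by omega)]
  · have h1 : vtx τ j k = 2 * τ.1 k + 1 := by
      unfold vtx
      rw [if_pos (by omega)]
    have h2 : vtx τ (j + 1) k = 2 * τ.1 k + 1 := by
      unfold vtx
      rw [if_pos (by omega)]
    unfold sg
    by_cases h4 : vtx τ j k < 0
    · rw [if_pos h4, if_pos (by omega)]
    · have h5 : 0 < vtx τ j k := by omega
      rw [if_neg h4, if_pos h5, if_neg (by omega), if_pos (by omega)]

/-- A change of the sign of the boundary coordinates of a block along an edge of a chain. -/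
theorem rho_change (β : κ → ι) {N : ℕ} (hN : 0 < N) {τ : Flag κ d} {i : ι} {j : ℕ}
    (h : rho β N i (vtx τ j) + rho β N i (vtx τ (j + 1)) ≠ 0) :
    ∃ k, β k = i ∧ |τ.1 k + bi (τ.2.2 k)| = (N : ℤ) := by
  have hN' : (0 : ℤ) < N := by exact_mod_cast hN
  have key : ∀ l : ℕ, Bd β N i (vtx τ l) → ∃ k, β k = i ∧ |τ.1 k + bi (τ.2.2 k)| = (N : ℤ) := by
    rintro l ⟨k, h1, h2⟩
    refine ⟨k, h1, ?_⟩
    unfold vtx at h2
    by_cases h3 : (τ.2.1.symm k : ℕ) < l
    · rw [if_pos h3] at h2
      exfalso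
      rcases abs_cases (2 * τ.1 k + 1) with h4 | h4 <;> omega
    · rw [if_neg h3, abs_mul] at h2
      have : |(2 : ℤ)| = 2 := rfl
      rw [this] at h2
      omega
  by_contra hc
  apply h
  rw [rho_zero β (fun h' => hc (key _ h')), rho_zero β (fun h' => hc (key _ h')), add_zero]

end Pool.Agent.Helper29.ZBU
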