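import Pool.Agent.Helper29.ZBU.Core

set_option autoImplicit false

/-!
# The theorem of Borsuk and Ulam for products of spheres: the sum over the flags
-/

namespace Pool.Agent.Helper29.ZBU

open Finset

variable {κ ι : Type} [Fintype κ] [DecidableEq κ] [DecidableEq ι] {d N : ℕ}

/-- The function does not depend on the cell of dimension `l`. -/
def Indep (l : ℕ) (f : (ℕ → κ → ℤ) → ZMod 2) : Prop := ∀ v w, (∀ j, j ≠ l → v j = w j) → f v = f w

theorem step (F : Fin d → (ℕ → κ → ℤ) → ZMod 2) (m : Fin d) (x y : (ℕ → κ → ℤ) → ZMod 2)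
    (hF : ∀ v, F m v = x v + y v) (hy : Indep (m : ℕ) y)
    (hj : ∀ j, j ≠ m → Indep (m : ℕ) (F j)) :
    ∑ τ ∈ flags κ d N, ∏ j, F j (vtx τ) =
      ∑ τ ∈ flags κ d N, ∏ j, (Function.update F m x) j (vtx τ) := by
  have h1 : ∀ v : ℕ → κ → ℤ, ∏ j, F j v = (∏ j, (Function.update F m x) j v) +
      y v * ∏ j ∈ univ.erase m, F j v := by
    intro v
    rw [← Finset.mul_prod_erase univ (fun j => F j v) (mem_univ m),
      ← Finset.mul_prod_erase univ (fun j => (Function.update F m x) j v) (mem_univ m), hF,
      Function.update_self, add_mul]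
    congr 2
    refine Finset.prod_congr rfl fun j hj => ?_
    rw [Function.update_of_ne (Finset.ne_of_mem_erase hj)]
  simp only [h1]
  rw [Finset.sum_add_distrib, sum_omit m.2 (fun v => y v * ∏ j ∈ univ.erase m, F j v), add_zero]
  intro v w hvw
  show y v * ∏ j ∈ univ.erase m, F j v = y w * ∏ j ∈ univ.erase m, F j w
  rw [hy v w hvw]
  congr 1
  exact Finset.prod_congr rfl fun j hj' => hj j (Finset.ne_of_mem_erase hj') v w hvw

/-- The sum over the flags. -/
noncomputable def T (N : ℕ) (s : Fin d → (κ → ℤ) → ZMod 2) : ZMod 2 :=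
  ∑ τ ∈ flags κ d N, ∏ j : Fin d, s j (vtx τ j)

/-- The sum of the products of the cochains. -/
theorem T_eq (s : Fin d → (κ → ℤ) → ZMod 2) :
    ∑ τ ∈ flags κ d N, ∏ j : Fin d, (s j (vtx τ j) + s j (vtx τ (j + 1))) = T N s := by
  let G : ℕ → Fin d → (ℕ → κ → ℤ) → ZMod 2 := fun m j v =>
    if (j : ℕ) < m then s j (v j) else s j (v j) + s j (v (j + 1))
  have key : ∀ m, m ≤ d → ∑ τ ∈ flags κ d N, ∏ j, G 0 j (vtx τ) =
      ∑ τ ∈ flags κ d N, ∏ j, G m j (vtx τ) := by
    intro m
    induction m with
    | zero => intro _; rfl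
    | succ m ih =>
      intro hm
      rw [ih (by omega)]
      have h1 := step (N := N) (G m) ⟨m, by omega⟩ (fun v => s ⟨m, by omega⟩ (v m))
        (fun v => s ⟨m, by omega⟩ (v (m + 1))) (fun v => by
          show (if m < m then _ else _) = _
          rw [if_neg (lt_irrefl m)]) (fun v w h => by
          show s _ (v (m + 1)) = s _ (w (m + 1))
          rw [h (m + 1) (by simp)]) (fun j hj v w h => by
          have hj' : (j : ℕ) ≠ m := fun h => hj (Fin.ext h)
          show (if (j : ℕ) < m then s j (v j) else s j (v j) + s j (v (j + 1))) =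
            if (j : ℕ) < m then s j (w j) else s j (w j) + s j (w (j + 1))
          rw [h j hj']
          by_cases hjm : (j : ℕ) < m
          · rw [if_pos hjm, if_pos hjm]
          · rw [if_neg hjm, if_neg hjm, h (j + 1) (by simp only; omega)])
      rw [h1]
      refine Finset.sum_congr rfl fun τ _ => Finset.prod_congr rfl fun j _ => ?_
      by_cases hj : j = ⟨m, by omega⟩
      · subst hj
        rw [Function.update_self]
        show _ = if m < m + 1 then _ else _
        rw [if_pos (by omega)]
      · rw [Function.update_of_ne hj]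
        have hj' : (j : ℕ) ≠ m := fun h => hj (Fin.ext h)
        show (if (j : ℕ) < m then _ else _) = if (j : ℕ) < m + 1 then _ else _
        by_cases hjm : (j : ℕ) < m
        · rw [if_pos hjm, if_pos (by omega)]
        · rw [if_neg hjm, if_neg (by omega)]
  have h1 := key d le_rfl
  have h2 : ∑ τ ∈ flags κ d N, ∏ j, G 0 j (vtx τ) =
      ∑ τ ∈ flags κ d N, ∏ j : Fin d, (s j (vtx τ j) + s j (vtx τ (j + 1))) := by
    refine Finset.sum_congr rfl fun τ _ => Finset.prod_congr rfl fun j _ => ?_
    show (if (j : ℕ) < 0 then _ else _) = _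
    rw [if_neg (by omega)]
  have h3 : ∑ τ ∈ flags κ d N, ∏ j, G d j (vtx τ) = T N s := by
    refine Finset.sum_congr rfl fun τ _ => Finset.prod_congr rfl fun j _ => ?_
    show (if (j : ℕ) < d then _ else _) = _
    rw [if_pos j.2]
  rw [← h2, h1, h3]

/-- The function `s` has the character `χ`. -/
def Eqv (β : κ → ι) (N : ℕ) (χ : ι → ZMod 2) (s : (κ → ℤ) → ZMod 2) : Prop :=
  ∀ i x, Bd β N i x → s (neg β i x) = s x + χ i

/-- The sum is zero if one of the characters is zero. -/
theorem T_zero {β : κ → ι} {χ : Fin d → ι → ZMod 2} {s : Fin d → (κ → ℤ) → ZMod 2} (j₀ : Fin d)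
    (hs : ∀ j, j ≠ j₀ → Eqv β N (χ j) (s j)) (h0 : Eqv β N 0 (s j₀)) : T N s = 0 := by
  have hd : 0 < d := lt_of_le_of_lt (Nat.zero_le _) j₀.2
  -- first family
  let G : ℕ → Fin d → (ℕ → κ → ℤ) → ZMod 2 := fun m j v =>
    if (j : ℕ) < m then s j (v j) else if (j : ℕ) < j₀ then s j (v j) + s j (v (j + 1)) else
      if j = j₀ then s j (v j) else s j (v (j - 1)) + s j (v j)
  have key : ∀ m, m ≤ (j₀ : ℕ) → ∑ τ ∈ flags κ d N, ∏ j, G 0 j (vtx τ) =
      ∑ τ ∈ flags κ d N, ∏ j, G m j (vtx τ) := by
    intro m
    induction m with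
    | zero => intro _; rfl
    | succ m ih =>
      intro hm
      rw [ih (by omega)]
      have hmd : m < d := by omega
      have h1 := step (N := N) (G m) ⟨m, hmd⟩ (fun v => s ⟨m, hmd⟩ (v m))
        (fun v => s ⟨m, hmd⟩ (v (m + 1))) (fun v => by
          show (if m < m then _ else if m < (j₀ : ℕ) then _ else _) = _
          rw [if_neg (lt_irrefl m), if_pos (by omega)]) (fun v w h => by
          show s _ (v (m + 1)) = s _ (w (m + 1))
          rw [h (m + 1) (by simp)]) (fun j hj v w h => by
          have hj' : (j : ℕ) ≠ m := fun h => hj (Fin.ext h)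
          show (if (j : ℕ) < m then s j (v j) else if (j : ℕ) < j₀ then s j (v j) + s j (v (j + 1))
            else if j = j₀ then s j (v j) else s j (v (j - 1)) + s j (v j)) =
            if (j : ℕ) < m then s j (w j) else if (j : ℕ) < j₀ then s j (w j) + s j (w (j + 1))
            else if j = j₀ then s j (w j) else s j (w (j - 1)) + s j (w j)
          rw [h j hj']
          by_cases hjm : (j : ℕ) < m
          · rw [if_pos hjm, if_pos hjm]
          · rw [if_neg hjm, if_neg hjm, h (j + 1) (by simp only; omega)]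
            by_cases hj1 : (j : ℕ) < j₀
            · rw [if_pos hj1, if_pos hj1]
            · rw [if_neg hj1, if_neg hj1]
              by_cases hj2 : j = j₀
              · rw [if_pos hj2, if_pos hj2]
              · rw [if_neg hj2, if_neg hj2]
                have hj3 : (j : ℕ) ≠ j₀ := fun h => hj2 (Fin.ext h)
                rw [h (j - 1) (by simp only; omega)])
      rw [h1]
      refine Finset.sum_congr rfl fun τ _ => Finset.prod_congr rfl fun j _ => ?_
      by_cases hj : j = ⟨m, hmd⟩
      · subst hj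
        rw [Function.update_self]
        show _ = if m < m + 1 then _ else _
        rw [if_pos (by omega)]
      · rw [Function.update_of_ne hj]
        have hj' : (j : ℕ) ≠ m := fun h => hj (Fin.ext h)
        show (if (j : ℕ) < m then s j (vtx τ j) else if (j : ℕ) < j₀ then
            s j (vtx τ j) + s j (vtx τ (j + 1)) else
          if j = j₀ then s j (vtx τ j) else s j (vtx τ (j - 1)) + s j (vtx τ j)) =
          if (j : ℕ) < m + 1 then s j (vtx τ j) else if (j : ℕ) < j₀ then
            s j (vtx τ j) + s j (vtx τ (j + 1)) else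
          if j = j₀ then s j (vtx τ j) else s j (vtx τ (j - 1)) + s j (vtx τ j)
        by_cases hjm : (j : ℕ) < m
        · rw [if_pos hjm, if_pos (show (j : ℕ) < m + 1 by omega)]
        · rw [if_neg hjm, if_neg (show ¬ (j : ℕ) < m + 1 by omega)]
  -- second family
  let U : ℕ → Fin d → (ℕ → κ → ℤ) → ZMod 2 := fun m j v =>
    if (j : ℕ) ≤ j₀ then s j (v j) else if (j : ℕ) < m then s j (v (j - 1)) + s j (v j) else
      s j (v j)
  have key' : ∀ m, (j₀ : ℕ) < m → m ≤ d → ∑ τ ∈ flags κ d N, ∏ j, U m j (vtx τ) =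
      ∑ τ ∈ flags κ d N, ∏ j, U (j₀ + 1) j (vtx τ) := by
    intro m
    induction m with
    | zero => intro h; omega
    | succ m ih =>
      intro hm1 hm2
      by_cases hm3 : m = (j₀ : ℕ)
      · rw [hm3]
      rw [← ih (by omega) (by omega)]
      have hmd : m < d := by omega
      have h1 := step (N := N) (U (m + 1)) ⟨m, hmd⟩ (fun v => s ⟨m, hmd⟩ (v m))
        (fun v => s ⟨m, hmd⟩ (v (m - 1))) (fun v => by
          show (if m ≤ (j₀ : ℕ) then _ else if m < m + 1 then
            s ⟨m, hmd⟩ (v (m - 1)) + s ⟨m, hmd⟩ (v m) else _) = _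
          rw [if_neg (by omega), if_pos (by omega), add_comm]) (fun v w h => by
          show s _ (v (m - 1)) = s _ (w (m - 1))
          rw [h (m - 1) (by simp only; omega)]) (fun j hj v w h => by
          have hj' : (j : ℕ) ≠ m := fun h => hj (Fin.ext h)
          show (if (j : ℕ) ≤ j₀ then s j (v j) else if (j : ℕ) < m + 1 then
            s j (v (j - 1)) + s j (v j) else s j (v j)) =
            if (j : ℕ) ≤ j₀ then s j (w j) else if (j : ℕ) < m + 1 then
            s j (w (j - 1)) + s j (w j) else s j (w j)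
          rw [h j hj']
          by_cases hj1 : (j : ℕ) ≤ j₀
          · rw [if_pos hj1, if_pos hj1]
          · rw [if_neg hj1, if_neg hj1]
            by_cases hj2 : (j : ℕ) < m + 1
            · rw [if_pos hj2, if_pos hj2, h (j - 1) (by simp only; omega)]
            · rw [if_neg hj2, if_neg hj2])
      rw [h1]
      refine Finset.sum_congr rfl fun τ _ => Finset.prod_congr rfl fun j _ => ?_
      by_cases hj : j = ⟨m, hmd⟩
      · subst hj
        rw [Function.update_self]
        show _ = if m ≤ (j₀ : ℕ) then _ else if m < m then _ else _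
        rw [if_neg (by omega), if_neg (lt_irrefl m)]
      · rw [Function.update_of_ne hj]
        have hj' : (j : ℕ) ≠ m := fun h => hj (Fin.ext h)
        show (if (j : ℕ) ≤ j₀ then _ else if (j : ℕ) < m + 1 then _ else _) =
          if (j : ℕ) ≤ j₀ then _ else if (j : ℕ) < m then _ else _
        by_cases hj1 : (j : ℕ) ≤ j₀
        · rw [if_pos hj1, if_pos hj1]
        · rw [if_neg hj1, if_neg hj1]
          by_cases hj2 : (j : ℕ) < m
          · rw [if_pos hj2, if_pos (by omega)]
          · rw [if_neg hj2, if_neg (by omega)]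
  have hGU : ∀ j v, G j₀ j v = U d j v := by
    intro j v
    show (if (j : ℕ) < j₀ then s j (v j) else if (j : ℕ) < j₀ then s j (v j) + s j (v (j + 1)) else
      if j = j₀ then s j (v j) else s j (v (j - 1)) + s j (v j)) =
      if (j : ℕ) ≤ j₀ then s j (v j) else if (j : ℕ) < d then s j (v (j - 1)) + s j (v j) else
      s j (v j)
    rcases lt_trichotomy (j : ℕ) j₀ with h | h | h
    · rw [if_pos h, if_pos h.le]
    · rw [if_neg (by omega), if_neg (by omega), if_pos (Fin.ext h), if_pos (by omega)]
    · rw [if_neg (by omega), if_neg (by omega), if_neg (fun h' => by rw [h'] at h; omega),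
        if_neg (by omega), if_pos j.2]
  have hUT : ∑ τ ∈ flags κ d N, ∏ j, U (j₀ + 1) j (vtx τ) = T N s := by
    refine Finset.sum_congr rfl fun τ _ => Finset.prod_congr rfl fun j _ => ?_
    show (if (j : ℕ) ≤ j₀ then _ else if (j : ℕ) < j₀ + 1 then _ else _) = _
    by_cases hj1 : (j : ℕ) ≤ j₀
    · rw [if_pos hj1]
    · rw [if_neg hj1, if_neg (by omega)]
  have hG0 : ∑ τ ∈ flags κ d N, ∏ j, G 0 j (vtx τ) = 0 := by
    refine sum_top hd β (fun v => ∏ j, G 0 j v) ?_ ?_
    · intro v w h
      refine Finset.prod_congr rfl fun j _ => ?_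
      show (if (j : ℕ) < 0 then s j (v j) else if (j : ℕ) < j₀ then s j (v j) + s j (v (j + 1)) else
        if j = j₀ then s j (v j) else s j (v (j - 1)) + s j (v j)) =
        if (j : ℕ) < 0 then s j (w j) else if (j : ℕ) < j₀ then s j (w j) + s j (w (j + 1)) else
        if j = j₀ then s j (w j) else s j (w (j - 1)) + s j (w j)
      rw [if_neg (Nat.not_lt_zero _), if_neg (Nat.not_lt_zero _), h j j.2,
        h (j - 1) (lt_of_le_of_lt (Nat.sub_le _ _) j.2)]
      by_cases hj1 : (j : ℕ) < j₀
      · rw [if_pos hj1, if_pos hj1, h (j + 1) (by have := j₀.2; omega)]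
      · rw [if_neg hj1, if_neg hj1]
    · intro v i h
      refine Finset.prod_congr rfl fun j _ => ?_
      show (if (j : ℕ) < 0 then s j (neg β i (v j)) else if (j : ℕ) < j₀ then
          s j (neg β i (v j)) + s j (neg β i (v (j + 1))) else
        if j = j₀ then s j (neg β i (v j)) else
          s j (neg β i (v (j - 1))) + s j (neg β i (v j))) =
        if (j : ℕ) < 0 then s j (v j) else if (j : ℕ) < j₀ then s j (v j) + s j (v (j + 1)) else
        if j = j₀ then s j (v j) else s j (v (j - 1)) + s j (v j)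
      rw [if_neg (Nat.not_lt_zero _), if_neg (Nat.not_lt_zero _)]
      have h2 : ∀ a b c : ZMod 2, (a + c) + (b + c) = a + b := by decide
      by_cases hj1 : (j : ℕ) < j₀
      · rw [if_pos hj1, if_pos hj1]
        have hne : j ≠ j₀ := fun h' => by rw [h'] at hj1; omega
        rw [hs j hne i _ (h j j.2), hs j hne i _ (h (j + 1) (by have := j₀.2; omega)), h2]
      · rw [if_neg hj1, if_neg hj1]
        by_cases hj2 : j = j₀
        · rw [if_pos hj2, if_pos hj2]
          subst hj2
          rw [h0 i _ (h j j.2), Pi.zero_apply, add_zero]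
        · rw [if_neg hj2, if_neg hj2, hs j hj2 i _ (h j j.2),
            hs j hj2 i _ (h (j - 1) (lt_of_le_of_lt (Nat.sub_le _ _) j.2)), h2]
  have h1 := key j₀ le_rfl
  rw [hG0] at h1
  rw [← hUT, ← key' d j₀.2 le_rfl, h1]
  refine Finset.sum_congr rfl fun τ _ => Finset.prod_congr rfl fun j _ => ?_
  exact (hGU j _).symm

end Pool.Agent.Helper29.ZBU
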